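import Pool.Agent.Helper69.MC.StC

/-!
# Project MC, module EMZ: minimizers are essential
-/

set_option autoImplicit false

namespace Pool.Agent.Helper13.MC

open Set Topology Filter MeasureTheory
open Pool.Agent.Helper31.CY Pool.Agent.Helper69.MF Pool.Agent.Helper69.MC

theorem hEMZ : StPOS → StLCC → StFRG → StCNE → StEMZ := by
  intro hPOS hLCC hFRG hCNE S Γ 𝒞 hΓ hS hM
  refine ⟨hM.2.1, ?_⟩
  intro q hq hqΓ r hr hspan
  have gen : ∀ (m : ℕ) (v : Fin m → E3) (i j : Fin m), 0 < m → Adj v → i ≠ j →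
      ModelAt S (Cn v) q → ∃ q' ∈ S, dist q' q < r ∧ RegP S q' := by
    intro m v i j hm hA hij h
    obtain ⟨ρ1, hρ1, hball⟩ := Metric.isOpen_iff.mp hΓ.isOpen_compl q hqΓ
    obtain ⟨ρ0, L, -, hL⟩ := hLCC S m v q hm hA h
    obtain ⟨q', hq'S, hd, hN, -⟩ := hL i j hij (min r ρ1) (lt_min hr hρ1)
    have h1 : dist q' q < r := lt_of_lt_of_le hd (min_le_left _ _)
    have h2 : dist q' q < ρ1 := lt_of_lt_of_le hd (min_le_right _ _)
    exact ⟨q', hq'S, h1, hFRG S Γ hS q' hq'S (hball (Metric.mem_ball.mpr h2)) hN⟩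
  have key : ∃ q' ∈ S, dist q' q < r ∧ RegP S q' := by
    rcases hS.int q hq hqΓ with h | h | h
    · exact ⟨q, hq, by simpa using hr, h⟩
    · rw [← hCNE.1] at h
      exact gen 3 vY 0 1 (by norm_num) hCNE.2.2.2.2.1 (by decide) h
    · rw [← hCNE.2.1] at h
      exact gen 4 tv 0 1 (by norm_num) hCNE.2.2.2.2.2.1 (by decide) h
  obtain ⟨q', hq'S, hd, hreg⟩ := key
  obtain ⟨γ, hγ, hγs⟩ := hPOS S Γ 𝒞 hS hM q' hq'S hreg (r - dist q' q) (by linarith)
  obtain ⟨s, hs⟩ := hspan γ hγ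
  apply hs.2
  have h3 := hγs s hs.1
  rw [Metric.mem_ball] at h3 ⊢
  have h4 := dist_triangle (γ s) q' q
  linarith

end Pool.Agent.Helper13.MC
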